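import Mathlib

/-! Project PU, piece PU-10: polar coordinates for `lintegral`. -/

open MeasureTheory Set Metric Filter Module
open scoped NNReal Topology RealInnerProductSpace ENNReal Real ContDiff Manifold

namespace Pool.Agent.Helper19.PU

variable {E : Type*} [NormedAddCommGroup E] [InnerProductSpace ℝ E]

theorem lintegral_volumeIoiPow_aux (n : ℕ) (w : ℝ → ℝ≥0∞) (hw : Measurable w) :
    ∫⁻ r : Ioi (0 : ℝ), w r ∂(Measure.volumeIoiPow n) =
      ∫⁻ r in Ioi (0 : ℝ), ENNReal.ofReal (r ^ n) * w r := by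
  unfold Measure.volumeIoiPow
  rw [lintegral_withDensity_eq_lintegral_mul _ (by fun_prop) (by fun_prop)]
  rw [← lintegral_subtype_comap measurableSet_Ioi
    (fun r : ℝ => ENNReal.ofReal (r ^ n) * w r)]
  rfl

theorem lintegral_polar_mul [FiniteDimensional ℝ E] [MeasurableSpace E] [BorelSpace E]
    [Nontrivial E] (g : E → ℝ≥0∞) (h : sphere (0 : E) 1 → ℝ≥0∞) (w : ℝ → ℝ≥0∞) (hh : Measurable h)
    (hw : Measurable w) (hg : ∀ u : sphere (0 : E) 1, ∀ r : ℝ, 0 < r → g (r • (u : E)) = h u * w r) :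
    ∫⁻ x, g x = (∫⁻ u, h u ∂(volume : Measure E).toSphere)
      * ∫⁻ r in Ioi (0 : ℝ), ENNReal.ofReal (r ^ (finrank ℝ E - 1)) * w r := by
  have h1 : ∫⁻ x, g x = ∫⁻ x : ({(0)}ᶜ : Set E), g x ∂((volume : Measure E).comap (↑)) := by
    rw [lintegral_subtype_comap (measurableSet_singleton _).compl g,
      restrict_compl_singleton]
  have h2 : ∀ x : ({(0)}ᶜ : Set E), g x =
      (fun p : sphere (0 : E) 1 × Ioi (0 : ℝ) => h p.1 * w p.2) (homeomorphUnitSphereProd E x) := by
    intro x
    have h3 : ((homeomorphUnitSphereProd E).symm (homeomorphUnitSphereProd E x) : E) = x := by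
      rw [Homeomorph.symm_apply_apply]
    have h4 := hg (homeomorphUnitSphereProd E x).1 (homeomorphUnitSphereProd E x).2
      (homeomorphUnitSphereProd E x).2.2
    refine Eq.trans ?_ h4
    congr 1
    exact h3.symm
  rw [h1, lintegral_congr h2,
    (volume : Measure E).measurePreserving_homeomorphUnitSphereProd.lintegral_comp_emb
      (Homeomorph.measurableEmbedding _)
      (fun p : sphere (0 : E) 1 × Ioi (0 : ℝ) => h p.1 * w p.2),
    ← lintegral_volumeIoiPow_aux _ w hw]
  exact lintegral_prod_mul hh.aemeasurable (hw.comp measurable_subtype_coe).aemeasurable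

end Pool.Agent.Helper19.PU
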